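import Pool.Agent.MP_db5b97_nt.H31.SpecA

/-! From commutative kernels to finite kernels, with the sharp bound. -/

namespace Pool.Agent.MP_db5b97_nt.H5

open H85 H30 H31 Module

variable {E W : Type} [Group E] [AddCommGroup W] [Module Om W] [DistribMulAction E W]
  {π : E →* Ga} {E0 U : Subgroup E}

theorem rowCn [FiniteDimensional Om W] {n : ℕ} {B : ℝ} (hC : Cn n B) (c : Ctx W π E0)
    (hU : Opn π E0 U) (hn : finrank Om W = n) (r : ℕ) (hr : 0 < r)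
    (h3 : ∀ g : U, π g = 1 → ∀ w : W, g ^ r • w = w)
    (h4 : ∀ g h : U, π g = 1 → π h = 1 → ∀ w : W, g • h • w = h • g • w) :
    ∃ U2 ≤ U, Opn π E0 U2 ∧ (∀ g : U, (g : E) ∈ U2 → π g = 1 → ∀ w : W, g • w = w) ∧
      ((U2.map π).relIndex (U.map π) : ℝ) ≤ B := by
  have := c.fin
  obtain ⟨E', k1, k2, k5⟩ := hC U W (π.comp U.subtype) (E0.subgroupOf U) r hn
    (fun e => c.sl e) (by
      obtain ⟨H, q1, q2⟩ := hU
      refine Subgroup.isOpen_mono (H₁ := E0.map π ⊓ H) ?_ (c.op.inter q1)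
      rintro _ ⟨⟨e, he, rfl⟩, hH⟩
      exact ⟨⟨e, q2 e he hH⟩, he, rfl⟩)
    (fun w => (c.st w).imp fun H h => ⟨h.1, fun e he hH => h.2 e he hH⟩)
    (c.im.imp fun i h => ⟨h.1, fun e => h.2 e⟩)
    (Finite.of_injective (fun g : (π.comp U.subtype).ker => (⟨g.1.1, g.2⟩ : π.ker))
      fun a b h => Subtype.ext (Subtype.ext (Subtype.mk.inj h))) hr h3 h4
  refine ⟨E'.map U.subtype, Subgroup.map_subtype_le _, ?_, ?_, ?_⟩
  · obtain ⟨H, q1, q2⟩ := hU
    obtain ⟨H', q3, q4⟩ := k1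
    exact ⟨H ⊓ H', q1.inter q3, fun e he hH => ⟨⟨e, q2 e he hH.1⟩, q4 _ he hH.2, rfl⟩⟩
  · rintro g ⟨g', hg', e⟩ hg
    rw [show g' = g from Subtype.ext e] at hg'
    exact k2 g hg' hg
  · have e : U.map π = (π.comp U.subtype).range := by
      rw [← MonoidHom.map_range, Subgroup.range_subtype]
    rwa [Subgroup.map_map, e]

theorem minimal2 [FiniteDimensional Om W] (c : Ctx W π E0) :
    ∃ U1 : Subgroup E, Opn π E0 U1 ∧ U1.map π = (⊤ : Subgroup E).map π ∧ Nil (U1 ⊓ π.ker) ∧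
      ∀ U' ≤ U1, Opn π E0 U' → U'.map π = U1.map π → U1 ⊓ π.ker ≤ U' := by
  classical
  have hex : ∃ n, ∃ U0 : Subgroup E, Opn π E0 U0 ∧ U0.map π = (⊤ : Subgroup E).map π ∧
      Nat.card ↥(U0 ⊓ π.ker) = n :=
    ⟨_, ⊤, ⟨⊤, isOpen_univ, fun _ _ _ => trivial⟩, rfl, rfl⟩
  obtain ⟨U0, h1, h2, h3⟩ := Nat.find_spec hex
  obtain ⟨U1, a1, a2, a3, a4⟩ := c.minimal h1
  refine ⟨U1, a2, a3.trans h2, a4, fun U' b1 b2 b3 => ?_⟩
  have := c.finite U0
  have k : U' ⊓ π.ker = U0 ⊓ π.ker :=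
    Subgroup.eq_of_le_of_card_ge (inf_le_inf_right _ (b1.trans a1))
      (h3 ▸ Nat.find_min' hex ⟨_, b2, b3.trans (a3.trans h2), rfl⟩)
  exact (inf_le_inf_right _ a1).trans (k ▸ inf_le_left)

theorem rowBs : H85.RowC → RowNA → RowBs := by
  classical
  intro hC hNA n B hn4 hCn E W _ _ _ _ _ π E0 hn h1 h2 h3 h4 h5 h6
  have c : Ctx W π E0 := ⟨h1, h2, h3, h4, h5, h6⟩
  obtain ⟨U0, a2, a3, a4, a5⟩ := minimal2 c
  set T0 := (Finset.range (n + 1)).filter (fun p => p.Prime ∧ p ^ 2 ≤ n) with hT0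
  have hT : ∀ p ∈ T0, p.Prime := fun p hp => (Finset.mem_filter.1 hp).2.1
  obtain ⟨U1, b1, b2, b3, b4⟩ := rounds hC c T0 hT _ (fun p => Nat.log p n) U0 rfl a2
    (fun p hp hna => by
      have h7 : p ^ 2 ≤ n := by
        by_cases h2' : p = 2
        · rw [h2']
          exact hn4
        · by_contra h8
          exact hNA E W π E0 U0 p c a2 a5 a4 hp h2' (by omega) hna
      refine Finset.mem_filter.2 ⟨Finset.mem_range.2 ?_, hp, h7⟩
      have := Nat.le_self_pow (n := 2) (by norm_num) p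
      omega)
    fun p hp W1 _ _ => W1.finrank_le.trans_lt (hn ▸ Nat.lt_pow_succ_log_self hp.one_lt _)
  obtain ⟨U2, k1, k2, k3, k6⟩ := rowCn hCn c b2 hn (Nat.card π.ker) Nat.card_pos
    (fun g hg w => by
      have : (g : E) ^ Nat.card π.ker = 1 :=
        congrArg Subtype.val (pow_card_eq_one' (x := (⟨g, hg⟩ : π.ker)))
      show ((g ^ Nat.card π.ker : U1) : E) • w = w
      rw [Subgroup.coe_pow, this, one_smul])
    (fun g u hg hu w => by
      show (g : E) • (u : E) • w = (u : E) • (g : E) • w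
      rw [← mul_smul, b3 g ⟨g.2, hg⟩ u ⟨u.2, hu⟩, mul_smul])
  refine ⟨U2, k2, fun g hg hπ => h6 g hπ (k3 ⟨g, k1 hg⟩ hg hπ), ?_⟩
  rw [MonoidHom.range_eq_map, ← a3,
    ← Subgroup.relIndex_mul_relIndex _ _ _ (Subgroup.map_mono k1) (Subgroup.map_mono b1),
    Nat.cast_mul]
  rw [hn] at b4
  exact mul_le_mul k6 (Nat.cast_le.2 b4) (Nat.cast_nonneg _) ((Nat.cast_nonneg _).trans k6)

end Pool.Agent.MP_db5b97_nt.H5
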