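import Pool.Agent.MP_db5b97_nt.H31.SpecG

/-! A large alternating section gives an element of small support. -/

namespace Pool.Agent.MP_db5b97_nt.H5

open MulAction Equiv
open Pool.Agent.MP_db5b97_nt.H31

theorem two_pow_le_fact (n : ℕ) : 2 ^ n ≤ (n + 1).factorial := by
  induction n with
  | zero => simp
  | succ n ih =>
    rw [Nat.factorial_succ (n + 1), pow_succ]
    nlinarith [Nat.factorial_pos (n + 1)]

theorem sq_lt_two_pow (L : ℕ) (h : 9 ≤ L) : 4 * (L + 1) ^ 2 + 3 < 2 ^ L := by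
  induction L, h using Nat.le_induction with
  | base => norm_num
  | succ n hn ih => rw [pow_succ 2 n]; nlinarith

theorem numeric (k b : ℕ) (hk : 512 ≤ k) (hb : b ≤ k ^ 2) :
    2 * b ^ (1 + Nat.log 2 b) < (k - 1).factorial := by
  set L := Nat.log 2 k with hL
  have hL9 : 9 ≤ L := by
    rw [hL]
    exact Nat.le_log_of_pow_le (by norm_num) (by norm_num; omega)
  have h1 : k < 2 ^ (L + 1) := Nat.lt_pow_succ_log_self (by norm_num) k
  have h2 : 2 ^ L ≤ k := Nat.pow_log_le_self 2 (by omega)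
  have h3 : b < 2 ^ (2 * (L + 1)) := by
    calc b ≤ k ^ 2 := hb
      _ < (2 ^ (L + 1)) ^ 2 := Nat.pow_lt_pow_left h1 (by norm_num)
      _ = 2 ^ (2 * (L + 1)) := by rw [← pow_mul, mul_comm]
  have h4 : Nat.log 2 b < 2 * (L + 1) := by
    rcases Nat.eq_zero_or_pos b with h0 | h0
    · subst h0; simp
    · exact Nat.log_lt_of_lt_pow (by omega) h3
  have h5 : b ^ (1 + Nat.log 2 b) ≤ 2 ^ (4 * (L + 1) ^ 2) := by
    calc b ^ (1 + Nat.log 2 b) ≤ (2 ^ (2 * (L + 1))) ^ (1 + Nat.log 2 b) :=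
          Nat.pow_le_pow_left h3.le _
      _ ≤ (2 ^ (2 * (L + 1))) ^ (2 * (L + 1)) :=
          Nat.pow_le_pow_right (by positivity) (by omega)
      _ = 2 ^ (4 * (L + 1) ^ 2) := by rw [← pow_mul]; congr 1; ring
  have h6 := sq_lt_two_pow L hL9
  have h7 : 2 ^ (k - 2) ≤ (k - 1).factorial := by
    have := two_pow_le_fact (k - 2)
    rwa [show k - 2 + 1 = k - 1 by omega] at this
  calc 2 * b ^ (1 + Nat.log 2 b) ≤ 2 * 2 ^ (4 * (L + 1) ^ 2) := by omega
    _ = 2 ^ (4 * (L + 1) ^ 2 + 1) := by rw [pow_succ]; ring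
    _ < 2 ^ (k - 2) := Nat.pow_lt_pow_right (by norm_num) (by omega)
    _ ≤ _ := h7

/-- normal subgroups mapping onto a perfect group have an intersection mapping onto it -/
theorem inter_onto {Γ S ι : Type} [Group Γ] [Group S] (χ : Γ →* S)
    (hs : Function.Surjective χ) (hp : commutator S = ⊤) (N : ι → Subgroup Γ)
    (T : Finset ι) (hn : ∀ y ∈ T, (N y).Normal) (ho : ∀ y ∈ T, (N y).map χ = ⊤) :
    ∃ M : Subgroup Γ, M.Normal ∧ M.map χ = ⊤ ∧ ∀ y ∈ T, M ≤ N y := by
  classical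
  induction T using Finset.induction_on with
  | empty =>
    exact ⟨⊤, inferInstance, by rw [← MonoidHom.range_eq_map, MonoidHom.range_eq_top.2 hs],
      by simp⟩
  | insert a T _ ih =>
    obtain ⟨M, hM, hM', hle⟩ := ih (fun y hy => hn y (Finset.mem_insert_of_mem hy))
      (fun y hy => ho y (Finset.mem_insert_of_mem hy))
    have := hM
    have := hn a (Finset.mem_insert_self a T)
    refine ⟨M ⊓ N a, inferInstance, ?_, ?_⟩
    · rw [eq_top_iff, ← hp]
      have h1 : (⁅M, N a⁆).map χ = commutator S := by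
        rw [Subgroup.map_commutator, hM', ho a (Finset.mem_insert_self a T)]
        rfl
      rw [← h1]
      exact Subgroup.map_mono (Subgroup.commutator_le_inf M (N a))
    · intro y hy
      rcases Finset.mem_insert.1 hy with rfl | hy
      · exact inf_le_right
      · exact inf_le_left.trans (hle y hy)

section chi

variable {E Z : Type} [Group E] (ψ : E →* Perm Z)

/-- the elements acting trivially outside `p` -/
def Ep (p : Z → Prop) : Subgroup E where
  carrier := {e | ∀ z, ¬ p z → ψ e z = z}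
  one_mem' := by intro z _; simp
  mul_mem' := by
    intro a b ha hb z hz
    rw [map_mul, Perm.mul_apply, hb z hz, ha z hz]
  inv_mem' := by
    intro a ha z hz
    rw [map_inv, Perm.inv_eq_iff_eq]
    exact (ha z hz).symm

theorem mem_Ep {p : Z → Prop} {e : E} : e ∈ Ep ψ p ↔ ∀ z, ¬ p z → ψ e z = z := Iff.rfl

theorem Ep_iff {p : Z → Prop} (e : Ep ψ p) (z : Z) : p (ψ e z) ↔ p z := by
  constructor
  · intro h
    by_contra hz
    rw [e.2 z hz] at h
    exact hz h
  · intro h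
    by_contra hz
    have h1 := e.2 _ hz
    rw [(ψ e).injective h1] at hz
    exact hz h

theorem Ep_mv {p : Z → Prop} (e : Ep ψ p) (z : Z) (h : ψ e z ≠ z) : p z := by
  by_contra hz
  exact h (e.2 z hz)

variable [Fintype Z] [DecidableEq Z]

/-- the action on the points satisfying `p` -/
def chi (hψ : ∀ e, Perm.sign (ψ e) = 1) (p : Z → Prop) [DecidablePred p] :
    Ep ψ p →* alternatingGroup {z // p z} where
  toFun e := ⟨(ψ e).subtypePerm (Ep_iff ψ e), by
    rw [Perm.mem_alternatingGroup, Perm.sign_subtypePerm _ _ (Ep_mv ψ e), hψ]⟩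
  map_one' := by
    ext z
    simp
  map_mul' a b := by
    ext z
    simp

theorem chi_spec (hψ : ∀ e, Perm.sign (ψ e) = 1) (p : Z → Prop) [DecidablePred p] (e : Ep ψ p) :
    Perm.ofSubtype (chi ψ hψ p e : Perm {z // p z}) = ψ e :=
  Perm.ofSubtype_subtypePerm (Ep_iff ψ e) (Ep_mv ψ e)

theorem chi_eq (hψ : ∀ e, Perm.sign (ψ e) = 1) (p : Z → Prop) [DecidablePred p] (a b : Ep ψ p) :
    chi ψ hψ p a = chi ψ hψ p b ↔ ψ a = ψ b := by
  constructor
  · intro h
    rw [← chi_spec ψ hψ p a, ← chi_spec ψ hψ p b, h]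
  · intro h
    ext z
    show (ψ a z : Z) = ψ b z
    rw [h]

theorem chi_surj (hψ : ∀ e, Perm.sign (ψ e) = 1)
    (hs : ∀ σ : Perm Z, Perm.sign σ = 1 → ∃ e, ψ e = σ) (p : Z → Prop) [DecidablePred p] :
    Function.Surjective (chi ψ hψ p) := by
  intro s
  obtain ⟨e, he⟩ := hs (Perm.ofSubtype (s : Perm {z // p z})) (by
    rw [Perm.sign_ofSubtype]; exact Perm.mem_alternatingGroup.1 s.2)
  refine ⟨⟨e, fun z hz => by rw [he, Perm.ofSubtype_apply_of_not_mem _ hz]⟩, ?_⟩
  ext z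
  show (ψ e z : Z) = _
  rw [he, Perm.ofSubtype_apply_of_mem _ z.2]

end chi

theorem noncomm {S : Type} [Group S] [Nontrivial S] (hp : commutator S = ⊤) :
    ∃ a b : S, a * b ≠ b * a := by
  by_contra h
  push Not at h
  have h1 : commutator S ≤ ⊥ := by
    refine Subgroup.commutator_le.2 fun a _ b _ => ?_
    rw [Subgroup.mem_bot, commutatorElement_eq_one_iff_mul_comm]
    exact h a b
  rw [hp] at h1
  exact top_ne_bot (le_bot_iff.1 h1)

/-- the elements fixing the orbit of `y` under `K` pointwise -/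
def Cy {E Y : Type} [Group E] [MulAction E Y] (K : Subgroup E) (y : Y) : Subgroup E where
  carrier := {e | ∀ a ∈ K, e • a • y = a • y}
  one_mem' := by intro a _; simp
  mul_mem' := by
    intro a b ha hb c hc
    rw [mul_smul, hb c hc, ha c hc]
  inv_mem' := by
    intro a ha c hc
    rw [inv_smul_eq_iff]
    exact (ha c hc).symm

/-- the orbit of `y` under `K`, as a set with an action of `G` -/
def orbK {E Y : Type} [Group E] [MulAction E Y] (K G : Subgroup E) (y : Y)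
    (h : ∀ g ∈ G, ∀ a ∈ K, ∃ b ∈ K, g • a • y = b • y) : SubMulAction G Y where
  carrier := {x | ∃ a ∈ K, a • y = x}
  smul_mem' := by
    rintro g x ⟨a, ha, rfl⟩
    obtain ⟨b, hb, h1⟩ := h g g.2 a ha
    exact ⟨b, hb, h1.symm⟩

theorem lift_one (hNP : RowNP) {E Y Z : Type} [Group E] [Finite E] [MulAction E Y] [Fintype Y]
    [Fintype Z] [DecidableEq Z] (ψ : E →* Perm Z) (hψ : ∀ e, Perm.sign (ψ e) = 1)
    (hs : ∀ σ : Perm Z, Perm.sign σ = 1 → ∃ e, ψ e = σ) (hK : Group.IsSolvable ψ.ker)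
    (hk : 512 ≤ Fintype.card Z) (hY : Fintype.card Y ≤ Fintype.card Z ^ 2) (y : Y) (z : Z)
    (hz : ∀ σ ∈ alternatingGroup Z, σ z = z → σ ∈ (stabilizer E y).map ψ) :
    (∀ g : E, ψ g z = z → ∀ a ∈ ψ.ker, ∃ b ∈ ψ.ker, g • a • y = b • y) ∧
      ∀ g : E, ψ g z = z → ∃ c ∈ Cy ψ.ker y, ψ c = ψ g := by
  classical
  have h1 : ∀ g : E, ψ g z = z → ∀ a ∈ ψ.ker, ∃ b ∈ ψ.ker, g • a • y = b • y := by
    intro g hg a ha
    obtain ⟨e, he, hge⟩ := hz (ψ g) (Perm.mem_alternatingGroup.2 (hψ g)) hg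
    refine ⟨g * a * e⁻¹, ?_, ?_⟩
    · rw [MonoidHom.mem_ker] at ha ⊢
      rw [map_mul, map_mul, ha, mul_one, map_inv, hge, mul_inv_cancel]
    · have he' : e⁻¹ • y = y := by
        rw [inv_smul_eq_iff]
        exact (mem_stabilizer_iff.1 he).symm
      rw [mul_smul, mul_smul, he']
  refine ⟨h1, ?_⟩
  have hG : ∀ g : E, g ∈ Ep ψ (fun w => w ≠ z) ↔ ψ g z = z := by
    intro g
    rw [mem_Ep]
    constructor
    · intro h
      exact h z (by simp)
    · intro h w hw
      have : w = z := by simpa using hw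
      rw [this, h]
  set G := Ep ψ (fun w => w ≠ z) with hGdef
  let B := orbK ψ.ker G y (fun g hg => h1 g ((hG g).1 hg))
  let : Fintype B := Fintype.ofFinite _
  have hcard : Nat.card {w // w ≠ z} = Fintype.card Z - 1 := by
    rw [Nat.card_eq_fintype_card, Fintype.card_subtype_compl, Fintype.card_subtype_eq]
  have h5 : 5 ≤ Nat.card {w // w ≠ z} := by omega
  have : IsSimpleGroup (alternatingGroup {w // w ≠ z}) := alternatingGroup.isSimpleGroup h5
  have : Nontrivial {w // w ≠ z} := Finite.one_lt_card_iff_nontrivial.1 (by omega)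
  have hKG : ψ.ker ≤ G := by
    intro a ha
    rw [hG, MonoidHom.mem_ker.1 ha]
    rfl
  have hsolv : Group.IsSolvable (ψ.ker.subgroupOf G) :=
    Group.isSolvable_of_isSolvable_injective
      (f := (Subgroup.subgroupOfEquivOfLe hKG).toMonoidHom) (MulEquiv.injective _)
  have hB : Fintype.card B ≤ Fintype.card Z ^ 2 :=
    (Fintype.card_le_of_injective _ Subtype.val_injective).trans hY
  have hnum := numeric (Fintype.card Z) (Fintype.card B) hk hB
  have hS : 2 * Nat.card (alternatingGroup {w // w ≠ z}) = (Fintype.card Z - 1).factorial := by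
    rw [two_mul_nat_card_alternatingGroup, Nat.card_perm, hcard]
  have key := hNP G B (alternatingGroup {w // w ≠ z}) (ψ.ker.subgroupOf G)
    (chi ψ hψ fun w => w ≠ z) inferInstance hsolv (by
      rintro ⟨_, a, ha, rfl⟩ ⟨_, b, hb, rfl⟩
      have hm : b * a⁻¹ ∈ ψ.ker := mul_mem hb (inv_mem ha)
      refine ⟨⟨b * a⁻¹, hKG hm⟩, hm, Subtype.ext ?_⟩
      show (b * a⁻¹) • a • y = b • y
      rw [mul_smul, inv_smul_smul])
    (chi_surj ψ hψ hs _) (noncomm (commutator_alternatingGroup_eq_top h5)) (by omega)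
  intro g hg
  obtain ⟨c, hc, hc'⟩ := key (chi ψ hψ _ ⟨g, (hG g).2 hg⟩)
  refine ⟨c, fun a ha => ?_, (chi_eq ψ hψ _ _ _).1 hc⟩
  exact congrArg Subtype.val (hc' ⟨a • y, a, ha, rfl⟩)

theorem five_points {Y Z : Type} [Fintype Y] [Fintype Z] [DecidableEq Z] (f : Y → Z)
    (hk : 10 ≤ Fintype.card Z) : ∃ A : Finset Z, A.card = 5 ∧
      (Finset.univ.filter fun y => f y ∈ A).card * Fintype.card Z ≤ 10 * Fintype.card Y := by
  classical
  set c : Z → ℕ := fun z => (Finset.univ.filter fun y => f y = z).card with hc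
  have hsum : ∑ z, c z = Fintype.card Y := by
    rw [← Finset.card_univ, Finset.card_eq_sum_card_fiberwise (f := f) (t := Finset.univ)
      (fun _ _ => Finset.mem_univ _)]
  set k := Fintype.card Z with hkd
  set n := Fintype.card Y with hnd
  set good := Finset.univ.filter fun z => c z * k ≤ 2 * n with hgood
  set bad := Finset.univ.filter fun z => ¬ c z * k ≤ 2 * n with hbad
  have h1 : good.card + bad.card = k := by
    rw [hgood, hbad, Finset.card_filter_add_card_filter_not, Finset.card_univ]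
  have h2 : bad.card * (2 * n + 1) ≤ n * k := by
    calc bad.card * (2 * n + 1) = ∑ _z ∈ bad, (2 * n + 1) := by simp
      _ ≤ ∑ z ∈ bad, c z * k := Finset.sum_le_sum fun z hz => by
          have := (Finset.mem_filter.1 hz).2
          omega
      _ ≤ ∑ z, c z * k := Finset.sum_le_sum_of_subset (Finset.subset_univ _)
      _ = n * k := by rw [← Finset.sum_mul, hsum]
  have h3 : 2 * bad.card ≤ k := by
    by_contra h
    push Not at h
    nlinarith
  obtain ⟨A, hA, hA5⟩ := Finset.exists_subset_card_eq (s := good) (n := 5) (by omega)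
  refine ⟨A, hA5, ?_⟩
  have h4 : (Finset.univ.filter fun y => f y ∈ A).card = ∑ z ∈ A, c z := by
    rw [Finset.card_eq_sum_card_fiberwise (f := f) (s := Finset.univ.filter fun y => f y ∈ A)
      (t := A) (fun y hy => (Finset.mem_filter.1 (Finset.mem_coe.1 hy)).2)]
    refine Finset.sum_congr rfl fun z hz => ?_
    rw [hc]
    congr 1
    ext y
    simp only [Finset.mem_filter, Finset.mem_univ, true_and]
    exact ⟨fun h => h.2, fun h => ⟨h ▸ hz, h⟩⟩
  rw [h4, Finset.sum_mul]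
  calc ∑ z ∈ A, c z * k ≤ ∑ _z ∈ A, 2 * n :=
        Finset.sum_le_sum fun z hz => (Finset.mem_filter.1 (hA hz)).2
    _ = 10 * n := by rw [Finset.sum_const, hA5, smul_eq_mul]; ring

theorem core0 (hNP : RowNP) {E Y Z : Type} [Group E] [Finite E] [MulAction E Y] [Fintype Y]
    [Fintype Z] [DecidableEq Z] (ψ : E →* Perm Z)
    (hψ : ∀ e, Perm.sign (ψ e) = 1)
    (hs : ∀ σ : Perm Z, Perm.sign σ = 1 → ∃ e, ψ e = σ) (hK : Group.IsSolvable ψ.ker)
    (hk : 512 ≤ Fintype.card Z) (hY : Fintype.card Y ≤ Fintype.card Z ^ 2) (f : Y → Z)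
    (hz : ∀ y, ∀ σ ∈ alternatingGroup Z, σ (f y) = f y → σ ∈ (stabilizer E y).map ψ)
    (p : Z → Prop) [DecidablePred p] (h5 : 5 ≤ Nat.card {w // p w}) :
    ∃ h : E, ψ h ≠ 1 ∧ ∀ y, ¬ p (f y) → h • y = y := by
  have : IsSimpleGroup (alternatingGroup {w // p w}) := alternatingGroup.isSimpleGroup h5
  obtain ⟨M, -, hM, hle⟩ := inter_onto (chi ψ hψ p) (chi_surj ψ hψ hs _)
    (commutator_alternatingGroup_eq_top h5) (fun y : Y => (Cy ψ.ker y).subgroupOf (Ep ψ p))
    (Finset.univ.filter fun y => ¬ p (f y)) (by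
      intro y hy
      have hy' := (Finset.mem_filter.1 hy).2
      obtain ⟨h1, -⟩ := lift_one hNP ψ hψ hs hK hk hY y (f y) (hz y)
      refine ⟨fun n hn g => ?_⟩
      intro a ha
      obtain ⟨b, hb, h2⟩ := h1 ((g⁻¹ : Ep ψ p) : E) ((g⁻¹).2 _ hy') a ha
      show ((g : E) * n * ((g⁻¹ : Ep ψ p) : E)) • a • y = a • y
      have h3 : (n : E) • b • y = b • y := hn b hb
      rw [mul_smul, mul_smul, h2, h3, ← h2, ← mul_smul]
      simp) (by
      intro y hy
      have hy' := (Finset.mem_filter.1 hy).2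
      obtain ⟨-, h1⟩ := lift_one hNP ψ hψ hs hK hk hY y (f y) (hz y)
      rw [eq_top_iff]
      intro s _
      obtain ⟨g, rfl⟩ := chi_surj ψ hψ hs p s
      obtain ⟨c, hc, hcg⟩ := h1 g (g.2 _ hy')
      refine ⟨⟨c, fun w hw => by rw [hcg]; exact g.2 w hw⟩, hc, ?_⟩
      exact (chi_eq ψ hψ _ _ _).2 hcg)
  obtain ⟨s, hs1⟩ := exists_ne (1 : alternatingGroup {w // p w})
  obtain ⟨h, hh, rfl⟩ : s ∈ M.map (chi ψ hψ p) := hM ▸ Subgroup.mem_top s
  refine ⟨h, fun h1 => hs1 ?_, fun y hy => ?_⟩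
  · rw [← map_one (chi ψ hψ p), chi_eq, h1]
    simp
  · have h2 : (h : E) ∈ Cy ψ.ker y := hle y (Finset.mem_filter.2 ⟨Finset.mem_univ _, hy⟩) hh
    have h3 := h2 1 (one_mem _)
    rwa [one_smul] at h3

theorem core (hNP : RowNP) {E Y Z : Type} [Group E] [Finite E] [MulAction E Y] [Fintype Y]
    [DecidableEq Y] [Fintype Z] [DecidableEq Z] (ψ : E →* Perm Z)
    (hψ : ∀ e, Perm.sign (ψ e) = 1)
    (hs : ∀ σ : Perm Z, Perm.sign σ = 1 → ∃ e, ψ e = σ) (hK : Group.IsSolvable ψ.ker)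
    (hk : 512 ≤ Fintype.card Z) (hY : Fintype.card Y ≤ Fintype.card Z ^ 2) (f : Y → Z)
    (hz : ∀ y, ∀ σ ∈ alternatingGroup Z, σ (f y) = f y → σ ∈ (stabilizer E y).map ψ) :
    ∃ h : E, ψ h ≠ 1 ∧ mv Y h * Fintype.card Z ≤ 10 * Fintype.card Y := by
  obtain ⟨A, hA5, hA⟩ := five_points f (by omega)
  have hcard : Nat.card {w // w ∈ A} = 5 := by
    rw [Nat.card_eq_fintype_card, Fintype.card_coe, hA5]
  obtain ⟨h, h1, h2⟩ := core0 hNP ψ hψ hs hK hk hY f hz (fun w => w ∈ A) hcard.ge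
  refine ⟨h, h1, le_trans (Nat.mul_le_mul_right _ ?_) hA⟩
  refine Finset.card_le_card fun y hy => ?_
  refine Finset.mem_filter.2 ⟨Finset.mem_univ _, ?_⟩
  by_contra hA'
  exact (Finset.mem_filter.1 hy).2 (h2 y hA')

/-- a minimal supplement -/
theorem exists_min {H Z : Type} [Group H] [Finite H] [Fintype Z] [DecidableEq Z]
    (φ : H →* Perm Z) (hs : ∀ σ : Perm Z, Perm.sign σ = 1 → ∃ e, φ e = σ) :
    ∃ E : Subgroup H, (∀ e : E, Perm.sign (φ.comp E.subtype e) = 1) ∧
      (∀ σ : Perm Z, Perm.sign σ = 1 → ∃ e, φ.comp E.subtype e = σ) ∧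
      Group.IsSolvable (φ.comp E.subtype).ker := by
  obtain ⟨E, hE, hmin⟩ := WellFoundedLT.exists_minimal inferInstance
    {E : Subgroup H | alternatingGroup Z ≤ E.map φ} ⟨⊤, fun σ hσ => by
      obtain ⟨e, he⟩ := hs σ (Perm.mem_alternatingGroup.1 hσ)
      exact ⟨e, Subgroup.mem_top e, he⟩⟩
  have h1 : E ≤ E ⊓ (alternatingGroup Z).comap φ := by
    refine hmin (fun σ hσ => ?_) inf_le_left
    obtain ⟨e, he, rfl⟩ := hE hσ
    exact ⟨e, ⟨he, hσ⟩, rfl⟩
  refine ⟨E, fun e => Perm.mem_alternatingGroup.1 (h1 e.2).2, fun σ hσ => ?_, ?_⟩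
  · obtain ⟨e, he, h⟩ := hE (Perm.mem_alternatingGroup.2 hσ)
    exact ⟨⟨e, he⟩, h⟩
  · have h2 : (φ.comp E.subtype).ker ≤ frattini E := by
      refine le_iInf₂ fun M hM => ?_
      by_contra hn
      have h3 : M ⊔ (φ.comp E.subtype).ker = ⊤ :=
        hM.2 _ (lt_of_le_of_ne le_sup_left fun h => hn (h ▸ le_sup_right))
      have h4 : E ≤ M.map E.subtype := by
        refine hmin (fun σ hσ => ?_) (Subgroup.map_subtype_le M)
        obtain ⟨e, he, rfl⟩ := hE hσ
        have h5 : (⟨e, he⟩ : E) ∈ M ⊔ (φ.comp E.subtype).ker := h3 ▸ Subgroup.mem_top _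
        rw [← Subgroup.comap_map_eq] at h5
        obtain ⟨m, hm, h6⟩ := h5
        exact ⟨m, ⟨m, hm, rfl⟩, h6⟩
      refine hM.1 (eq_top_iff.2 fun e _ => ?_)
      obtain ⟨m, hm, h7⟩ := h4 e.2
      exact (Subtype.ext h7 : m = e) ▸ hm
    have : Group.IsNilpotent (frattini E) := frattini_nilpotent
    exact Group.isSolvable_of_isSolvable_injective (f := Subgroup.inclusion h2)
      (Subgroup.inclusion_injective h2)

theorem rowG4 : RowIL → RowNP → RowG4 := by
  rintro ⟨k0, hIL⟩ hNP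
  refine ⟨max k0 512, fun H Y Z _ _ _ _ _ _ _ _ hk hG hY => ?_⟩
  obtain ⟨E, hψ, hs, hK⟩ := exists_min (toPermHom H Z) (fun σ hσ => by
    obtain ⟨g, hg⟩ := hG σ hσ
    exact ⟨g, Equiv.ext hg⟩)
  set ψ := (toPermHom H Z).comp E.subtype with hψd
  have hr : ψ.range = alternatingGroup Z := by
    ext σ
    exact ⟨fun ⟨e, he⟩ => he ▸ Perm.mem_alternatingGroup.2 (hψ e),
      fun h => hs σ (Perm.mem_alternatingGroup.1 h)⟩
  have hz : ∀ y : Y, ∃ z : Z, ∀ σ ∈ alternatingGroup Z, σ z = z →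
      σ ∈ (stabilizer E y).map ψ := by
    intro y
    refine hIL Z _ (le_trans (le_max_left _ _) hk) (hr ▸ Subgroup.map_le_range ψ _) ?_
    refine le_trans (Nat.mul_le_mul_left _ ?_) hY
    rw [← hr, ← Subgroup.index_comap, Subgroup.comap_map_eq]
    have h1 : (stabilizer E y ⊔ ψ.ker).index ∣ (stabilizer E y).index :=
      Subgroup.index_dvd_of_le le_sup_left
    refine le_trans (Nat.le_of_dvd (Nat.pos_of_ne_zero Subgroup.FiniteIndex.index_ne_zero) h1) ?_
    rw [index_stabilizer, ← Nat.card_eq_fintype_card]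
    exact Set.ncard_le_card _
  choose f hf using hz
  obtain ⟨h, h1, h2⟩ := core hNP ψ hψ hs hK (le_trans (le_max_right _ _) hk) (by omega) f hf
  refine ⟨h, ?_, h2⟩
  by_contra h3
  push Not at h3
  exact h1 (Equiv.ext h3)

end Pool.Agent.MP_db5b97_nt.H5
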