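import Pool.Agent.MP_db5b97_nt.H31.SpecT

/-! Summation over orbits and the final computation. -/

namespace Pool.Agent.MP_db5b97_nt.H5

open H31 Finset

theorem exists_rep (G Y : Type) [Group G] [MulAction G Y] :
    ∃ (r : Y → Y) (γ : Y → G), (∀ w, γ w • r w = w) ∧ ∀ (g : G) w, r (g • w) = r w := by
  have h : ∀ w : Y, ∃ g : G, g • (Quotient.mk (MulAction.orbitRel G Y) w).out = w := fun w => by
    obtain ⟨g, hg⟩ := MulAction.orbitRel_apply.1
      (Quotient.exact (Quotient.out_eq (Quotient.mk (MulAction.orbitRel G Y) w)))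
    exact ⟨g⁻¹, by rw [← hg, inv_smul_smul]⟩
  choose γ hγ using h
  refine ⟨_, γ, hγ, fun g w => ?_⟩
  have : Quotient.mk (MulAction.orbitRel G Y) (g • w) = Quotient.mk (MulAction.orbitRel G Y) w :=
    Quotient.sound (MulAction.orbitRel_apply.2 ⟨g, rfl⟩)
  rw [this]

theorem rowORB : RowORB := by
  classical
  intro G Y N B _ _ _ _ _ _ S f θ hS hf hv _ ht
  obtain ⟨r, γ, hγ, hr⟩ := exists_rep G Y
  have hr' : ∀ w, r w = (γ w)⁻¹ • w := fun w => by rw [eq_inv_smul_iff, hγ]
  have hrS : ∀ w ∈ S, r w ∈ S := fun w hw => by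
    rw [hr']
    exact hS _ w hw
  have hrr : ∀ w, r (r w) = r w := fun w => by
    conv_lhs => rw [hr' w, hr]
  have e1 : ∀ w ∈ S, f w (θ w) = f (r w) ((γ w)⁻¹ • θ w) := fun w hw => by
    rw [← hf (γ w) (r w) (hrS w hw), hγ, smul_inv_smul]
  rw [sum_congr rfl e1, ← sum_fiberwise_of_maps_to (g := r) (t := S.image r)
    fun w hw => mem_image_of_mem r hw]
  refine sum_eq_zero fun w0 hw0 => ?_
  obtain ⟨w1, hw1, rfl⟩ := mem_image.1 hw0
  have e2 : ∀ w ∈ S.filter fun w => r w = r w1,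
      f (r w) ((γ w)⁻¹ • θ w) = f (r w1) ((γ w)⁻¹ • θ w) := fun w hw => by
    rw [(mem_filter.1 hw).2]
  rw [sum_congr rfl e2, ← map_sum]
  refine hv _ (hrS w1 hw1) (univ.filter fun g => g • r w1 = r w1) _ (by simp) ?_
  have e3 : ∑ g : G, g • θ (g⁻¹ • r w1) = 0 := by
    have := DFunLike.congr_fun ht (r w1)
    simpa [tr_apply] using this
  rw [← sum_fiberwise_of_maps_to (g := fun g : G => g⁻¹ • r w1)
    (t := S.filter fun w => r w = r w1)
    fun g _ => mem_filter.2 ⟨hS _ _ (hrS w1 hw1), by rw [hr, hrr]⟩] at e3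
  rw [← e3]
  simp_rw [smul_sum]
  rw [sum_comm]
  refine sum_congr rfl fun w hw => ?_
  have hw' : γ w • r w1 = w := by rw [← (mem_filter.1 hw).2, hγ]
  refine sum_nbij' (fun d => d * (γ w)⁻¹) (fun g => g * γ w) (fun d hd => ?_) (fun g hg => ?_)
    (fun d _ => by simp) (fun g _ => by simp) fun d hd => ?_
  · have h1 : d⁻¹ • r w1 = r w1 := by rw [inv_smul_eq_iff, (mem_filter.1 hd).2]
    exact mem_filter.2 ⟨mem_univ _, by rw [mul_inv_rev, inv_inv, mul_smul, h1, hw']⟩
  · refine mem_filter.2 ⟨mem_univ _, ?_⟩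
    rw [mul_smul, hw', ← (mem_filter.1 hg).2, smul_inv_smul]
  · have h1 : d⁻¹ • r w1 = r w1 := by rw [inv_smul_eq_iff, (mem_filter.1 hd).2]
    rw [mul_inv_rev, inv_inv, mul_smul (γ w), h1, hw', mul_smul]

section Tr

variable {G B : Type} [Group G] [Fintype G] [AddCommGroup B] [DistribMulAction G B]

theorem tr_smul (g : G) (x : B) : tr G (g • x) = tr G x := by
  rw [tr_apply, tr_apply]
  exact Fintype.sum_equiv (Equiv.mulRight g) _ _ fun t => by simp [mul_smul]

theorem smul_tr (g : G) (x : B) : g • tr G x = tr G x := by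
  rw [tr_apply, smul_sum]
  exact Fintype.sum_equiv (Equiv.mulLeft g) _ _ fun t => by simp [mul_smul]

theorem tr_aug (e : G → B) : tr G (∑ g : G, (g • e g - e g)) = 0 := by
  rw [map_sum]
  exact sum_eq_zero fun g _ => by rw [map_sub, tr_smul, sub_self]

theorem map_tr (d : B →+ B) (hd : ∀ (g : G) x, d (g • x) = g • d x) (x : B) :
    d (tr G x) = tr G (d x) := by
  simp only [tr_apply, map_sum, hd]

end Tr

theorem rowALG : RowALG := by
  intro G B _ _ _ _ d ν n h h1 t s b u e e' hG hd hν hex ht hs hb hu he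
  have a1 : tr G (ν u) = 0 := by rw [← hu, map_sub, map_nsmul, hb, tr_aug, smul_zero, sub_zero]
  have a2 : ∑ g : G, (g • ν u - ν u) = -((h * n) • ν u) := by
    rw [sum_sub_distrib, ← tr_apply, a1, sum_const, card_univ, ← Nat.card_eq_fintype_card, hG,
      zero_sub]
  have a3 : ν (∑ g : G, (g • e' g - e' g)) = n • ∑ g : G, (g • e g - e g) := by
    rw [map_sum, smul_sum]
    exact sum_congr rfl fun g _ => by rw [map_sub, hν, ← he, smul_sub, smul_comm n g]
  have a4 : ν (∑ g : G, (g • u - u)) = -((h * n) • ν u) := by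
    rw [map_sum, ← a2]
    exact sum_congr rfl fun g _ => by rw [map_sub, hν]
  obtain ⟨y, hy⟩ := hex ((h * h1) • s + ∑ g : G, (g • u - u) - h • ∑ g : G, (g • e' g - e' g)) (by
    rw [map_sub, map_add, map_nsmul, map_nsmul, hs, a3, a4, ← hu]
    generalize ∑ g : G, (g • e g - e g) = z
    module)
  refine ⟨(h * h1) • t - tr G y, ?_, fun g => ?_⟩
  · rw [map_sub, map_nsmul, ht, map_tr d hd, ← hy, map_sub, map_add, map_nsmul, map_nsmul,
      tr_aug fun _ => u, tr_aug, smul_zero, add_zero, sub_zero, sub_self]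
  · rw [smul_sub, smul_tr, smul_comm g (h * h1), smul_sub]
    abel

end Pool.Agent.MP_db5b97_nt.H5
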